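import Pool.Agent.Helper15.FC.St1

set_option autoImplicit false

namespace Pool.Agent.Helper39.FC

open Pool.Agent.Helper15.FC Polynomial

theorem coeff_pow_card {k : Type} [Field k] [Fintype k] (u : PowerSeries k) (n : ℕ) :
    PowerSeries.coeff n (u ^ Fintype.card k) =
      if Fintype.card k ∣ n then PowerSeries.coeff (n / Fintype.card k) u else 0 := by
  have hq : 0 < Fintype.card k := Fintype.card_pos
  have h1 : PowerSeries.coeff n (u ^ Fintype.card k) =
      ((PowerSeries.trunc (n + 1) u) ^ Fintype.card k : k[X]).coeff n := by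
    have h2 := PowerSeries.trunc_trunc_pow u (n + 1) (Fintype.card k)
    have h3 := congrArg (fun p : k[X] => p.coeff n) h2
    simp only [PowerSeries.coeff_trunc, Nat.lt_succ_self, if_true] at h3
    rw [← h3, ← Polynomial.coe_pow, Polynomial.coeff_coe]
  rw [h1, ← FiniteField.expand_card, Polynomial.coeff_expand hq]
  split_ifs with h
  · rw [PowerSeries.coeff_trunc, if_pos]
    exact Nat.lt_succ_of_le (Nat.div_le_self _ _)
  · rfl

/-- the recursively defined coefficients -/
noncomputable def cf {k : Type} [Field k] [Fintype k] {b : ℕ}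
    (XX : Matrix (Fin b) (Fin b) k[X]) (y0 : Fin b → k) (n : ℕ) : Fin b → k :=
  if n = 0 then y0
  else fun i =>
    (if Fintype.card k ∣ n then
      (if h : n / Fintype.card k < n then cf XX y0 (n / Fintype.card k) i else 0) else 0) -
      ∑ m : Fin n, ∑ j, (XX i j).coeff (n - m) * cf XX y0 m j
termination_by n
decreasing_by
  · exact h
  · exact m.2

theorem cf_zero {k : Type} [Field k] [Fintype k] {b : ℕ}
    (XX : Matrix (Fin b) (Fin b) k[X]) (y0 : Fin b → k) : cf XX y0 0 = y0 := by
  rw [cf, if_pos rfl]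

theorem cf_pos {k : Type} [Field k] [Fintype k] {b : ℕ}
    (XX : Matrix (Fin b) (Fin b) k[X]) (y0 : Fin b → k) {n : ℕ} (hn : n ≠ 0) (i : Fin b) :
    cf XX y0 n i = (if Fintype.card k ∣ n then cf XX y0 (n / Fintype.card k) i else 0) -
      ∑ m ∈ Finset.range n, ∑ j, (XX i j).coeff (n - m) * cf XX y0 m j := by
  have hlt : n / Fintype.card k < n :=
    Nat.div_lt_self (Nat.pos_of_ne_zero hn) Fintype.one_lt_card
  rw [cf, if_neg hn]
  simp only [hlt, dif_pos]
  rw [← Fin.sum_univ_eq_sum_range
    (fun m => ∑ j, (XX i j).coeff (n - m) * cf XX y0 m j) n]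

theorem hSOL : StSOL := by
  intro k _ _ b XX y0 hX
  have hq : 0 < Fintype.card k := Fintype.card_pos
  have hc0 : ∀ i j, (XX i j).coeff 0 = if i = j then 1 else 0 := by
    intro i j
    have h := congrFun (congrFun hX i) j
    rw [Matrix.map_apply, ← Polynomial.coeff_zero_eq_eval_zero, Matrix.one_apply] at h
    exact h
  refine ⟨fun i => PowerSeries.mk fun n => cf XX y0 n i, ?_, ?_⟩
  · intro i
    rw [← PowerSeries.coeff_zero_eq_constantCoeff_apply, PowerSeries.coeff_mk, cf_zero]
  · intro i
    ext n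
    rw [coeff_pow_card, map_sum]
    have h1 : ∀ j : Fin b, PowerSeries.coeff n ((XX i j : PowerSeries k) *
        (PowerSeries.mk fun m => cf XX y0 m j)) =
        ∑ m ∈ Finset.range (n + 1), (XX i j).coeff (n - m) * cf XX y0 m j := by
      intro j
      rw [mul_comm, PowerSeries.coeff_mul, Finset.Nat.sum_antidiagonal_eq_sum_range_succ_mk]
      refine Finset.sum_congr rfl fun m _ => ?_
      rw [PowerSeries.coeff_mk, Polynomial.coeff_coe, mul_comm]
    rw [Finset.sum_congr rfl fun j _ => h1 j, Finset.sum_comm, Finset.sum_range_succ, Nat.sub_self]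
    have h2 : ∑ j, (XX i j).coeff 0 * cf XX y0 n j = cf XX y0 n i := by
      rw [Finset.sum_congr rfl fun j _ => by rw [hc0 i j]]
      simp
    rw [h2, PowerSeries.coeff_mk]
    by_cases hn : n = 0
    · subst hn
      simp
    · rw [cf_pos XX y0 hn i]
      ring

end Pool.Agent.Helper39.FC

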